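import Pool.Agent.X190.AT.Perm

set_option autoImplicit false

open scoped ComplexOrder

noncomputable section

namespace Pool.Agent.Results.MP_54e5d7_al.AmenableTwist

variable {G : Type} [Group G] {K L N : Type} [Fintype K] [Fintype L] [Fintype N]

/-- The kernel of right multiplication by the matrix `A` over the complex group ring on row vectors
with index set `K` over `l2(G)`: all square-summable `x` with `x A = 0`. -/
def kernel (A : Matrix K L (G →₀ ℂ)) : Set (lp (fun _ : K × G => ℂ) 2) :=
  {x | ∀ (j : L) (g : G), ∑ k : K, ∑ h ∈ (A k j).support, x (k, g * h⁻¹) * A k j h = 0}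

open Classical in
/-- The von Neumann dimension of that kernel: the sum over `i` of one minus the square of the
distance from the basis vector at `(i, 1)` to the kernel, that is, the sum of the squared lengths
of the projections of these vectors to the kernel. -/
def kerDim (A : Matrix K L (G →₀ ℂ)) : ℝ :=
  ∑ i : K, (1 - Metric.infDist
    (lp.single (E := fun _ : K × G => ℂ) 2 (i, (1 : G)) (1 : ℂ)) (kernel A) ^ 2)

/-- The twist of the matrix `A` with the matrix-valued function `ρ`: the term with the group element
`g` of the entry at `(i, j)` is multiplied by the matrix `ρ g`. -/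
def twist (ρ : G → Matrix N N ℂ) (A : Matrix K L (G →₀ ℂ)) : Matrix (K × N) (L × N) (G →₀ ℂ) :=
  fun p q => Finsupp.onFinset (A p.1 q.1).support (fun g => A p.1 q.1 g * ρ g p.2 q.2) (by
    intro g hg
    rw [Finsupp.mem_support_iff]
    intro h0
    exact hg (by rw [h0, zero_mul]))

/-- The action of `G` on `Ω` is amenable: for every finite set `S` of elements of `G` and every
`ε > 0` there is a nonempty finite set `W` in `Ω` such that for every `t` in `S` at most `ε |W|`
elements `y` of `W` satisfy `t y ∉ W`. -/
def AmenableAction (G Ω : Type) [Group G] [MulAction G Ω] : Prop :=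
  ∀ (S : Finset G) (ε : ℝ), 0 < ε → ∃ W : Finset Ω, W.Nonempty ∧
    ∀ t ∈ S, (({y | y ∈ W ∧ t • y ∉ W} : Set Ω).ncard : ℝ) ≤ ε * W.card

theorem dim_eq {G : Type} [Group G] {K L : Type} [Fintype K] [dK : DecidableEq K]
    (A : Matrix K L (G →₀ ℂ)) : kerDim A = W649.ZL.kerDimM A := by
  have h : dK = fun a b => Classical.propDecidable (a = b) := Subsingleton.elim _ _
  subst h
  rfl

/-- Twisting with `ρ` multiplies the dimensions of kernels by the dimension of `ρ`: the kernel of the
twist of `A` has von Neumann dimension `n · dim ker A` for every finite matrix `A` over the complex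
group ring of `G`, where `n` is the dimension of `ρ`. -/
def TwistFormula [DecidableEq N] (ρ : G →* Matrix N N ℂ) : Prop :=
  ∀ (K L : Type) [Fintype K] [Fintype L] (A : Matrix K L (G →₀ ℂ)),
    kerDim (twist (fun g => ρ g) A) = Fintype.card N * kerDim A

/-- Let `G` be any group and `ρ` a finite-dimensional complex representation of `G`.

1. If `H` is a co-amenable subgroup of `G` (the action of `G` on `G / H` is amenable, for example
   `H` is normal and `G / H` is an amenable group) and the twist formula holds for the restriction of
   `ρ` to `H`, then it holds for `ρ`.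
2. The twist formula holds for `ρ` if `G` acts amenably on a set `Ω` and there is an equivariant
   field of inner products: positive definite matrices `P(y)`, for `y` in `Ω`, with
   `ρ(g) P(y) ρ(g)* = P(g y)`. For example if the restriction of `ρ` to a co-amenable subgroup
   preserves an inner product.
3. It holds for `ρ` if there are a normal subgroup `F` of finite index in `G` and a number `k` such
   that the restriction of `ρ` to the `k`-th derived subgroup of `F` preserves an inner product. For
   example for all `ρ` with a virtually solvable image, and their tensor products with unitary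
   representations.
4. If `ρ'` is a matrix-valued function, for example a representation, which is block triangular
   (the blocks are given by the values of the function `lev`) with block diagonal part `ρ`, then the
   kernel of the twist with `ρ'` has at most the dimension of that of the twist with `ρ`. -/
theorem result [DecidableEq N] (ρ : G →* Matrix N N ℂ) :
    (∀ H : Subgroup G, AmenableAction G (G ⧸ H) → TwistFormula (ρ.comp H.subtype) →
      TwistFormula ρ) ∧
    (∀ (Ω : Type) [MulAction G Ω] (P : Ω → Matrix N N ℂ), AmenableAction G Ω →
      (∀ y, (P y).PosDef) → (∀ g y, ρ g * P y * star (ρ g) = P (g • y)) → TwistFormula ρ) ∧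
    (∀ (F : Subgroup G) (k : ℕ) (P : Matrix N N ℂ), F.Normal → F.FiniteIndex → P.PosDef →
      (∀ h ∈ (derivedSeries F k).map F.subtype, ρ h * P * star (ρ h) = P) → TwistFormula ρ) ∧
    (∀ (K L : Type) [Fintype K] [Fintype L] (A : Matrix K L (G →₀ ℂ)) (ρ' : G → Matrix N N ℂ)
      (lev : N → ℝ), (∀ g a b, lev b < lev a → ρ' g a b = 0) →
      (∀ g a b, lev a ≠ lev b → ρ g a b = 0) → (∀ g a b, lev a = lev b → ρ' g a b = ρ g a b) →
      kerDim (twist ρ' A) ≤ kerDim (twist (fun g => ρ g) A)) := by
  classical
  refine ⟨?_, ?_, ?_, ?_⟩
  · intro H hH hgood K L _ _ A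
    rw [dim_eq, dim_eq]
    refine X190.AT.kerDimM_perm H hH A _ ρ (fun i a j b g => rfl) ?_
    intro W A' B' hB'
    have h1 : B' = twist (fun h => (ρ.comp H.subtype) h) A' := by
      funext p q
      ext h
      exact hB' p.1 p.2 q.1 q.2 h
    have h2 := hgood _ _ A'
    rw [dim_eq, dim_eq] at h2
    rw [h1]
    exact h2
  · intro Ω _ P hΩ hP h K L _ _ A
    rw [dim_eq, dim_eq]
    choose s hs hsP using fun y => X190.AT.exists_factor (P y) (hP y)
    refine X190.AT.kerDimM_field hΩ A _ ρ (fun i a j b g => rfl) s hs ?_
    intro g y
    rw [hsP, hsP, h]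
  · intro F k P hF1 hF2 hP h K L _ _ A
    rw [dim_eq, dim_eq]
    exact X190.AT.kerDimM_sub _ (X190.AT.am_virt F k) A _ ρ (fun i a j b g => rfl) P hP h
  · intro K L _ _ A ρ' lev h1 h2 h3
    rw [dim_eq, dim_eq]
    exact X190.AT.kerDimM_tri_le A _ _ (fun g => ρ g) ρ' lev h1 h2 h3 (fun i a j b g => rfl)
      (fun i a j b g => rfl)

end Pool.Agent.Results.MP_54e5d7_al.AmenableTwist
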