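import Pool.Agent.X263.At.Red

/-!
# Kernel dimensions of matrices with monomial entries off some rows and columns

Let `G` be a group, `K` a subfield of the complex numbers closed under conjugation and `A` a matrix
over `K[G]`. Suppose that off `r` rows and `s` columns all entries of `A` have the form
`c g_i h_j` with `c` in `K`. The von Neumann dimension of the kernel of `A` is the sum of an integer
and the dimension of the kernel of a square matrix over `K[G]` of size `r + s`.
-/

set_option autoImplicit false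

universe u

noncomputable section

namespace Pool.Agent.Results.MP_54e5d7_al.BorderedReduction

/-- The kernel of right multiplication by the matrix `A` over the complex group ring on row vectors
over `l2(G)`, indexed by the rows of `A`: all square-summable `x` with `x A = 0`. -/
def kernel {G : Type u} [Group G] {I J : Type} [Fintype I] (A : Matrix I J (G →₀ ℂ)) :
    Set (lp (fun _ : I × G => ℂ) 2) :=
  {x | ∀ (j : J) (g : G), ∑ k : I, ∑ h ∈ (A k j).support, x (k, g * h⁻¹) * A k j h = 0}

open Classical in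
/-- The von Neumann dimension of that kernel: the sum over `i` of one minus the square of the
distance from the basis vector at `(i, 1)` to the kernel, that is, the sum of the squared lengths
of the projections of these vectors to the kernel. -/
def kerDim {G : Type u} [Group G] {I J : Type} [Fintype I] (A : Matrix I J (G →₀ ℂ)) : ℝ :=
  ∑ i : I, (1 - Metric.infDist
    (lp.single (E := fun _ : I × G => ℂ) 2 (i, (1 : G)) (1 : ℂ)) (kernel A) ^ 2)

theorem kerDim_eq {G : Type u} [Group G] {I J : Type} [Fintype I] [Fintype J] [DecidableEq I]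
    [DecidableEq J] (A : Matrix I J (G →₀ ℂ)) : kerDim A = W649.ZL.kerDimM A := by
  unfold kerDim W649.ZL.kerDimM
  have e : ∀ (d₁ d₂ : DecidableEq (I × G)) (i : I × G),
      @lp.single (I × G) (fun _ => ℂ) _ d₁ 2 i (1 : ℂ) =
        @lp.single (I × G) (fun _ => ℂ) _ d₂ 2 i (1 : ℂ) := by
    intro d₁ d₂ i
    rw [Subsingleton.elim d₁ d₂]
  exact Finset.sum_congr rfl fun i _ =>
    congrArg (fun y => 1 - Metric.infDist y (kernel A) ^ 2) (e _ _ _)

open Matrix in
theorem result (G : Type u) [Group G] (K : Subfield ℂ) (hK : ∀ z ∈ K, (starRingEnd ℂ) z ∈ K)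
    {r s m l : ℕ} (X : Matrix (Fin r) (Fin s) (G →₀ ℂ)) (Y : Matrix (Fin r) (Fin l) (G →₀ ℂ))
    (Z : Matrix (Fin m) (Fin s) (G →₀ ℂ)) (c : Matrix (Fin m) (Fin l) ℂ) (g : Fin m → G)
    (h : Fin l → G) (hX : ∀ i j t, X i j t ∈ K) (hY : ∀ i j t, Y i j t ∈ K)
    (hZ : ∀ i j t, Z i j t ∈ K) (hc : ∀ i j, c i j ∈ K) :
    (∃ (n : ℤ) (P : Matrix (Fin r) (Fin r) (G →₀ ℂ)) (C : Matrix (Fin s) (Fin r) (G →₀ ℂ))
      (Q : Matrix (Fin s) (Fin s) (G →₀ ℂ)), (∀ i j t, P i j t ∈ K) ∧ (∀ i j t, C i j t ∈ K) ∧
      (∀ i j t, Q i j t ∈ K) ∧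
      kerDim (fromBlocks X Y Z (of fun i j => Finsupp.single (g i * h j) (c i j))) =
        n + kerDim (fromBlocks P 0 C Q)) ∧
    ∀ d : ℕ, (∀ B : Matrix (Fin r ⊕ Fin s) (Fin r ⊕ Fin s) (G →₀ ℂ), (∀ i j t, B i j t ∈ K) →
        ∃ z : ℤ, d * kerDim B = z) →
      ∃ z : ℤ, d * kerDim (fromBlocks X Y Z
        (of fun i j => Finsupp.single (g i * h j) (c i j))) = z := by
  have main : ∃ (n : ℤ) (P : Matrix (Fin r) (Fin r) (G →₀ ℂ))
      (C : Matrix (Fin s) (Fin r) (G →₀ ℂ)) (Q : Matrix (Fin s) (Fin s) (G →₀ ℂ)),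
      (∀ i j t, P i j t ∈ K) ∧ (∀ i j t, C i j t ∈ K) ∧ (∀ i j t, Q i j t ∈ K) ∧
      kerDim (fromBlocks X Y Z (of fun i j => Finsupp.single (g i * h j) (c i j))) =
        n + kerDim (fromBlocks P 0 C Q) := by
    obtain ⟨n, B, hB, hB0, hn⟩ := Pool.Agent.X263.At.main2 (G := G) K hK
      (fun i j => fromBlocks X Y Z (of fun i j => Finsupp.single (g i * h j) (c i j)) i j)
      (fun i j t => by
        rcases i with i | i <;> rcases j with j | j
        · exact hX i j t
        · exact hY i j t
        · exact hZ i j t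
        · change (Finsupp.single (g i * h j) (c i j)) t ∈ K
          by_cases ht : g i * h j = t
          · rw [ht, Finsupp.single_eq_same]
            exact hc i j
          · rw [Finsupp.single_eq_of_ne (Ne.symm ht)]
            exact K.zero_mem)
      (Sum.elim (fun _ => 1) g) (Sum.elim (fun _ => 1) h) (fun i j => ⟨c i j, rfl⟩)
    refine ⟨n, fun i j => B (Sum.inl i) (Sum.inl j), fun i j => B (Sum.inr i) (Sum.inl j),
      fun i j => B (Sum.inr i) (Sum.inr j), fun _ _ _ => hB _ _ _, fun _ _ _ => hB _ _ _,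
      fun _ _ _ => hB _ _ _, ?_⟩
    rw [kerDim_eq, kerDim_eq]
    have e : fromBlocks (fun i j => B (Sum.inl i) (Sum.inl j)) 0
        (fun i j => B (Sum.inr i) (Sum.inl j)) (fun i j => B (Sum.inr i) (Sum.inr j)) = B := by
      funext i j
      rcases i with i | i <;> rcases j with j | j
      · rfl
      · exact (hB0 i j).symm
      · rfl
      · rfl
    rw [e]
    exact hn
  refine ⟨main, fun d hd => ?_⟩
  obtain ⟨n, P, C, Q, hP, hC, hQ, hn⟩ := main
  obtain ⟨z, hz⟩ := hd (fromBlocks P 0 C Q) (fun i j t => by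
    rcases i with i | i <;> rcases j with j | j
    · exact hP i j t
    · exact K.zero_mem
    · exact hC i j t
    · exact hQ i j t)
  refine ⟨d * n + z, ?_⟩
  rw [hn, mul_add, hz]
  push_cast
  ring

end Pool.Agent.Results.MP_54e5d7_al.BorderedReduction
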