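import Pool.Agent.X190.PN.Lcm

set_option autoImplicit false

universe u

noncomputable section

namespace Pool.Agent.Results.MP_54e5d7_al.Dichotomy

/-- The kernel of right multiplication by the matrix `A` over the complex group ring on row vectors
of length `m` over `l2(G)`: all square-summable `x` with `x A = 0`. -/
def kernel {G : Type u} [Group G] {m l : ℕ} (A : Matrix (Fin m) (Fin l) (G →₀ ℂ)) :
    Set (lp (fun _ : Fin m × G => ℂ) 2) :=
  {x | ∀ (j : Fin l) (g : G),
    ∑ k : Fin m, ∑ h ∈ (A k j).support, x (k, g * h⁻¹) * A k j h = 0}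

open Classical in
/-- The von Neumann dimension of that kernel: the sum over `i` of one minus the square of the
distance from the basis vector at `(i, 1)` to the kernel, that is, the sum of the squared lengths
of the projections of these vectors to the kernel. -/
def kerDim {G : Type u} [Group G] {m l : ℕ} (A : Matrix (Fin m) (Fin l) (G →₀ ℂ)) : ℝ :=
  ∑ i : Fin m, (1 - Metric.infDist
    (lp.single (E := fun _ : Fin m × G => ℂ) 2 (i, (1 : G)) (1 : ℂ)) (kernel A) ^ 2)

/-- The set of the kernel dimensions of all finite matrices over the group ring of `G` whose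
coefficients are in the subring `R` of the complex numbers. -/
def dims (R : Subring ℂ) (G : Type u) [Group G] : Set ℝ :=
  {r | ∃ (m l : ℕ) (A : Matrix (Fin m) (Fin l) (G →₀ ℂ)), (∀ i j g, A i j g ∈ R) ∧ r = kerDim A}

/-- All conjugacy classes of `G` other than that of the identity are infinite. -/
def ICC (G : Type u) [Group G] : Prop :=
  ∀ g : G, g ≠ 1 → {x : G | ∃ h : G, x = h * g * h⁻¹}.Infinite

/-- The orders of the finite subgroups of `G` are bounded, and `L` is their least common
multiple. -/
def IsLcm (G : Type u) [Group G] (L : ℕ) : Prop :=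
  0 < L ∧ (∀ H : Subgroup G, Finite H → Nat.card H ∣ L) ∧
    ∀ M : ℕ, 0 < M → (∀ H : Subgroup G, Finite H → Nat.card H ∣ M) → L ∣ M

theorem dims_eq (R : Subring ℂ) (G : Type u) [Group G] : dims R G = X190.PN.DD R G := by
  have h : ∀ (m l : ℕ) (A : Matrix (Fin m) (Fin l) (G →₀ ℂ)), kerDim A = W649.ZL.kerDimM A := by
    intro m l A
    have h : (fun a b => Classical.propDecidable (a = b) : DecidableEq (Fin m))
        = instDecidableEqFin m := Subsingleton.elim _ _
    unfold kerDim W649.ZL.kerDimM
    rfl
  unfold dims X190.PN.DD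
  ext r
  constructor
  · rintro ⟨m, l, A, hA, hr⟩
    exact ⟨m, l, A, hA, by rw [hr, h]⟩
  · rintro ⟨m, l, A, hA, hr⟩
    exact ⟨m, l, A, hA, by rw [hr, h]⟩

/-- Let `R` be a subring of the complex numbers, such as a subfield, and `dims R G` the set of the
von Neumann dimensions of the kernels of all finite matrices over the group ring `R G`.

1. Let `G` be a group all of whose nontrivial conjugacy classes are infinite. Then either `dims R G`
is dense in the half-line `[0, ∞)`, or the orders of the finite subgroups of `G` are bounded and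
`dims R G` consists of all nonnegative integral multiples of `1 / (c L)`, where `L` is their least
common multiple and `c` is a positive integer.

2. Such a group `G`, with a least common multiple `L`, satisfies the Atiyah conjecture over `R` (all
numbers in `dims R G` are integral multiples of `1 / L`) if and only if `dims R G` contains no number
in the interval `(0, 1 / (2 L)]`.

3. For every `L` the Atiyah conjecture over `R` for all groups with least common multiple `L` is
equivalent to the statement that there are no numbers in `(0, 1 / (2 L)]` in `dims R G`, for the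
groups `G` among them that have infinite nontrivial conjugacy classes.

4. For every `ε` in `(0, 1]` the Atiyah conjecture over `R` for all groups with bounded orders of
finite subgroups is equivalent to the statement that for all these groups `G` the positive numbers
in `dims R G` are at least `ε / L`. -/
theorem result (R : Subring ℂ) :
    (∀ (G : Type u) [Group G], ICC G →
      closure (dims R G) = Set.Ici 0 ∨
      ∃ c L : ℕ, 0 < c ∧ IsLcm G L ∧ dims R G = {x : ℝ | ∃ k : ℕ, x = k / (c * L)}) ∧
    (∀ (G : Type u) [Group G] (L : ℕ), ICC G → IsLcm G L →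
      ((∀ r ∈ dims R G, ∃ n : ℤ, L * r = n) ↔ ∀ r ∈ dims R G, 0 < r → 1 / (2 * L) < r)) ∧
    (∀ L : ℕ,
      (∀ (G : Type u) [Group G], IsLcm G L → ∀ r ∈ dims R G, ∃ n : ℤ, L * r = n) ↔
      ∀ (G : Type u) [Group G], ICC G → IsLcm G L → ∀ r ∈ dims R G, 0 < r → 1 / (2 * L) < r) ∧
    (∀ ε : ℝ, 0 < ε → ε ≤ 1 →
      ((∀ (G : Type u) [Group G] (L : ℕ), IsLcm G L → ∀ r ∈ dims R G, ∃ n : ℤ, L * r = n) ↔
      ∀ (G : Type u) [Group G] (L : ℕ), IsLcm G L → ∀ r ∈ dims R G, 0 < r → ε / L ≤ r)) := by
  refine ⟨?_, ?_, ?_, ?_⟩
  · intro G _ hG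
    rw [dims_eq]
    rcases X190.PN.dichotomy R hG with ⟨N, hN, h⟩ | h
    · right
      have hd : ∀ H : Subgroup G, Finite H → Nat.card H ∣ N := by
        intro H hH
        have h1 := X190.PN.inv_card_mem_DD R H
        rw [h] at h1
        obtain ⟨k, hk⟩ := h1
        have hc : (0 : ℝ) < Nat.card H := by exact_mod_cast Nat.card_pos
        have hNr : (0 : ℝ) < N := by exact_mod_cast hN
        rw [div_eq_div_iff hc.ne' hNr.ne', one_mul] at hk
        refine ⟨k, ?_⟩
        have h2 : (N : ℝ) = ((k * Nat.card H : ℕ) : ℝ) := by
          push_cast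
          exact hk
        have h3 : N = k * Nat.card H := by exact_mod_cast h2
        rw [h3, mul_comm]
      obtain ⟨L, hL, c, hc⟩ := X190.PN.exists_lcm G N hN hd
      refine ⟨c, L, ?_, hL, ?_⟩
      · rcases Nat.eq_zero_or_pos c with h0 | h0
        · rw [h0, mul_zero] at hc
          omega
        · exact h0
      · rw [h, hc]
        push_cast
        rw [mul_comm (L : ℝ)]
    · exact Or.inl h
  · intro G _ L hG hL
    rw [dims_eq]
    exact X190.PN.gap_iff R hG L hL
  · intro L
    constructor
    · intro h G _ hG hL r hr
      rw [dims_eq] at hr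
      refine (X190.PN.gap_iff R hG L hL).1 ?_ r hr
      rw [← dims_eq]
      exact h G hL
    · intro h G _ hL r hr
      rw [dims_eq] at hr
      have h1 := (X190.PN.gap_iff R (X190.PN.ov_icc G) L (X190.PN.lcm_ov G L hL)).2 (by
        rw [← dims_eq]
        exact h (X190.PN.Ov G) (X190.PN.ov_icc G) (X190.PN.lcm_ov G L hL))
      exact h1 r (X190.PN.DD_mono R (X190.PN.ovIn G) (X190.PN.ovIn_inj G) hr)
  · intro ε hε hε1
    constructor
    · intro h G _ L hL r hr hr0
      obtain ⟨n, hn⟩ := h G L hL r hr
      have hLr : (0 : ℝ) < L := by exact_mod_cast hL.1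
      have h1 : (0 : ℝ) < n := by
        rw [← hn]
        positivity
      have h2 : (1 : ℤ) ≤ n := by
        have : (0 : ℤ) < n := by exact_mod_cast h1
        omega
      have h3 : (1 : ℝ) ≤ L * r := by
        rw [hn]
        exact_mod_cast h2
      rw [div_le_iff₀ hLr, mul_comm]
      linarith
    · intro h G _ L hL r hr
      by_contra hcon
      push Not at hcon
      rw [dims_eq] at hr
      obtain ⟨Γ, _, M, hM, s, hs, hs0, hsε⟩ := X190.PN.uniform R G L hL r hr hcon ε hε
      rw [← dims_eq] at hs
      exact absurd (h Γ M hM s hs hs0) (not_le.2 hsε)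

end Pool.Agent.Results.MP_54e5d7_al.Dichotomy
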