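import Pool.Agent.X190.LQ.Cone
import Pool.Agent.X190.TW.Dom

set_option autoImplicit false

universe u v

noncomputable section

namespace Pool.Agent.Results.MP_54e5d7_al.IndicableQuotient

/-- The kernel of right multiplication by the matrix `A` over the complex group ring on row vectors
of length `m` over `l2(G)`: all square-summable `x` with `x A = 0`. -/
def kernel {G : Type u} [Group G] {m l : ℕ} (A : Matrix (Fin m) (Fin l) (G →₀ ℂ)) :
    Set (lp (fun _ : Fin m × G => ℂ) 2) :=
  {x | ∀ (j : Fin l) (g : G),
    ∑ k : Fin m, ∑ h ∈ (A k j).support, x (k, g * h⁻¹) * A k j h = 0}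

open Classical in
/-- The von Neumann dimension of that kernel: the sum over `i` of one minus the square of the
distance from the basis vector at `(i, 1)` to the kernel, that is, the sum of the squared lengths
of the projections of these vectors to the kernel. -/
def kerDim {G : Type u} [Group G] {m l : ℕ} (A : Matrix (Fin m) (Fin l) (G →₀ ℂ)) : ℝ :=
  ∑ i : Fin m, (1 - Metric.infDist
    (lp.single (E := fun _ : Fin m × G => ℂ) 2 (i, (1 : G)) (1 : ℂ)) (kernel A) ^ 2)

/-- A group is locally indicable if every nontrivial finitely generated subgroup has a nontrivial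
homomorphism to the group of integers. -/
def LocallyIndicable (Q : Type v) [Group Q] : Prop :=
  ∀ K : Subgroup Q, K.FG → K ≠ ⊥ → ∃ φ : K →* Multiplicative ℤ, ∃ k, φ k ≠ 1

/-- The subset `P` of the group `Q` is positive: for every nonempty finite subset `S` of `P` there
is a homomorphism from the subgroup generated by `S` to the group of integers which is nonnegative
on `S` and not zero on `S`. -/
def Positive {Q : Type v} [Group Q] (P : Set Q) : Prop :=
  ∀ S : Finset Q, S.Nonempty → (S : Set Q) ⊆ P →
    ∃ φ : Subgroup.closure (S : Set Q) →* Multiplicative ℤ,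
      (∀ s (hs : s ∈ S), 0 ≤ (φ ⟨s, Subgroup.subset_closure hs⟩).toAdd) ∧
      ∃ s, ∃ hs : s ∈ S, 0 < (φ ⟨s, Subgroup.subset_closure hs⟩).toAdd

open Classical in
/-- The face of the matrix `A` for the homomorphism `π` and the elements `g i`, `h j` of `G`: the
terms with a group element `t` in the entry at `(i, j)` such that `π (g i * t * h j) = 1`. -/
def face {G : Type u} {Q : Type v} [Group G] [Group Q] (π : G →* Q) {m l : ℕ} (g : Fin m → G)
    (h : Fin l → G) (A : Matrix (Fin m) (Fin l) (G →₀ ℂ)) : Matrix (Fin m) (Fin l) (G →₀ ℂ) :=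
  fun i j => (A i j).filter (fun t => π (g i * t * h j) = 1)

/-- All other terms of the entry of `A` at `(i, j)` have `π (g i * t * h j)` in `P`. -/
def SupportedOn {G : Type u} {Q : Type v} [Group G] [Group Q] (π : G →* Q) (P : Set Q) {m l : ℕ}
    (g : Fin m → G) (h : Fin l → G) (A : Matrix (Fin m) (Fin l) (G →₀ ℂ)) : Prop :=
  ∀ i j, ∀ t ∈ (A i j).support, π (g i * t * h j) = 1 ∨ π (g i * t * h j) ∈ P

theorem kerDim_eq {G : Type u} [Group G] {m l : ℕ} (A : Matrix (Fin m) (Fin l) (G →₀ ℂ)) :
    kerDim A = W649.ZL.kerDimM A := by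
  have h : (fun a b => Classical.propDecidable (a = b) : DecidableEq (Fin m))
      = instDecidableEqFin m := Subsingleton.elim _ _
  unfold kerDim W649.ZL.kerDimM
  rfl

/-- 1. Every locally indicable group `Q` is the disjoint union of `{1}`, a positive subsemigroup `P`
(so `P` is the positive cone of a left invariant order) and `P⁻¹`.

2. Let `π` be a homomorphism from any group `G` to a group `Q` with a positive subset `P`, and let
`A` be a matrix over the complex group ring of `G` and `g i`, `h j` elements of `G` such that
`π (g i * t * h j)` is in `P` or equal to `1` for every group element `t` in the entry of `A` at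
`(i, j)`. Then the von Neumann dimension of the kernel of `A` on `l2(G)^m` is at most that of the
kernel of the face of `A`, consisting of the terms with `π (g i * t * h j) = 1`.

3. Suppose moreover that this face has a triangular minor of size `n` with regular diagonal entries:
there are distinct rows `f 0, ..., f (n-1)` and columns `c 0, ..., c (n-1)` such that the entry of
the face at `(f b, c a)` is zero for `a < b` and that the kernel of the `1 × 1` matrix with the
entry at `(f a, c a)` has dimension zero. Then the kernel dimension of `A` is at most `m - n`; for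
`n = m` it is zero. -/
theorem result :
    (∀ (Q : Type v) [Group Q], LocallyIndicable Q → ∃ P : Set Q, Positive P ∧ (1 : Q) ∉ P ∧
      (∀ q, q ≠ 1 → q ∈ P ∨ q⁻¹ ∈ P) ∧ ∀ p ∈ P, ∀ q ∈ P, p * q ∈ P) ∧
    (∀ (G : Type u) (Q : Type v) [Group G] [Group Q] (π : G →* Q) (P : Set Q), Positive P →
      ∀ (m l : ℕ) (A : Matrix (Fin m) (Fin l) (G →₀ ℂ)) (g : Fin m → G) (h : Fin l → G),
        SupportedOn π P g h A → kerDim A ≤ kerDim (face π g h A)) ∧
    (∀ (G : Type u) (Q : Type v) [Group G] [Group Q] (π : G →* Q) (P : Set Q), Positive P →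
      ∀ (m l : ℕ) (A : Matrix (Fin m) (Fin l) (G →₀ ℂ)) (g : Fin m → G) (h : Fin l → G),
        SupportedOn π P g h A →
      ∀ (n : ℕ) (f : Fin n → Fin m) (c : Fin n → Fin l), Function.Injective f →
        (∀ a b, a < b → face π g h A (f b) (c a) = 0) →
        (∀ a, kerDim (fun _ _ : Fin 1 => face π g h A (f a) (c a)) = 0) →
        kerDim A ≤ m - n ∧ (n = m → kerDim A = 0)) := by
  classical
  have h2 : ∀ (G : Type u) (Q : Type v) [Group G] [Group Q] (π : G →* Q) (P : Set Q), Positive P →
      ∀ (m l : ℕ) (A : Matrix (Fin m) (Fin l) (G →₀ ℂ)) (g : Fin m → G) (h : Fin l → G),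
        SupportedOn π P g h A → kerDim A ≤ kerDim (face π g h A) := by
    intro G Q _ _ π P hP m l A g h hA
    rw [kerDim_eq, kerDim_eq]
    refine X190.LQ.kerDimM_face_group π P hP g h A _ ?_ ?_ ?_
    · intro i j t ht h1
      exact (hA i j t ht).resolve_left h1
    · intro i j t ht
      exact Finsupp.filter_apply_pos _ _ ht
    · intro i j t ht
      exact Finsupp.filter_apply_neg _ _ ht
  refine ⟨?_, h2, ?_⟩
  · intro Q _ hQ
    exact X190.LQ.exists_cone hQ
  · intro G Q _ _ π P hP m l A g h hA n f c hf htri hdiag
    have h3 : kerDim A ≤ m - n := by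
      refine (h2 G Q π P hP m l A g h hA).trans ?_
      rw [kerDim_eq]
      have h4 := X190.TW.kerDimM_tri (face π g h A) n f c hf htri (fun a => by
        have := hdiag a
        rw [kerDim_eq] at this
        exact this.le)
      rwa [Fintype.card_fin] at h4
    refine ⟨h3, ?_⟩
    rintro rfl
    rw [sub_self] at h3
    refine le_antisymm h3 ?_
    rw [kerDim_eq]
    obtain ⟨T, _, hTk, _⟩ := X190.TW.exists_op A
    rw [hTk]
    exact W649.ZL.vd_nonneg _

end Pool.Agent.Results.MP_54e5d7_al.IndicableQuotient
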